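import Pool.Agent.Work.MP_b46d52_pr.Final

open Pool.Agent.Work.MP_b46d52_pr

namespace Pool.Agent.Results.MP_b46d52_pr.NotHyperbolicallyMonotone

/-- The factor function `g` of Chernoff's density does not belong to `log(HM_∞)`. In fact
`p(x) = g(log x)/x` does not even satisfy the order-two part of the definition of `HM_∞`: it is
not true that for every `u > 0` the function `p(uv) p(u/v)` of `w = v + 1/v > 2` is nonincreasing
and convex. -/
theorem result : ∀ g : ℝ → ℝ, IsChernoffFactor g →
    ¬ LogHM g ∧ ¬ HM2 (fun x => g (Real.log x) / x) :=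
  fun _ h => ⟨not_logHM h, not_HM2 h⟩

end Pool.Agent.Results.MP_b46d52_pr.NotHyperbolicallyMonotone
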